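import Mathlib
import Pool.Agent.TH216.LR.Lr8

/-!
# The strong motivic monodromy conjecture at the origin for all polynomials with affinely
# independent exponents

Let `k` be a field, `k ⊂ ℂ`, and let `f = ∑_j c_j x ^ (m j) ∈ k[x_1, …, x_n]`, `f(0) = 0`, `c_j ≠ 0`,
at least one term, have affinely independent exponent vectors. There is NO condition on the
exponents: `B1`-facets, non-isolated singularities and monomial factors are all allowed, the number
of variables is arbitrary. Then the local motivic zeta function of `f` at the origin,
`𝕃 ^ (-n) ∑_{N ≥ 1} [𝒳_N] (𝕃 ^ (-n) T) ^ N` with `𝒳_N` the `N`-jets with origin `0` on which `f` has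
order `N`, lies in the ring generated by `T` and finitely many `1 / (1 - 𝕃 ^ a T ^ b)` with
`a < 0 < b` and `a / b` ITSELF (not only modulo integers) a root of the local Bernstein-Sato
polynomial `b_{f,0}`; by the theorem of Malgrange and Kashiwara `exp(2 π i a / b)` is an eigenvalue
of the monodromy of `f` at points of `{f = 0}` arbitrarily near to `0`. The same holds, with the
same finite set, for the zeta functions of the jets whose angular component lies in a constructible
set `E` of nonzero numbers (for instance `f(ψ) = t ^ N mod t ^ (N + 1)`).

Method. Expanding the powers of `f`, the functional equation of `b_{f,0}` becomes an identity in the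
ring `ℂ[X_1, …, X_r]` (`X_j` counts the `j`-th monomial). It is turned into a multiplicative identity
for the series `∑_u q ^ (-|u|) F (⟨u, m_1⟩ - t, …, ⟨u, m_r⟩ - t)` over the `u` with all `u i > 0`, `F` a
difference polynomial applied to the Heaviside function of the orthant, for every integer `q ≥ 2`. On
the other side, the classes of the zero sets of the face polynomials in the tori satisfy linear
relations, one for each variable which has exponent `1` in one monomial of a face and does not occur
in the others; so the zeta function is a combination of universal series in `q ^ (-1)` and `T`. The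
multiplicative identity shows that for every `q ≥ 2` these universal series have no poles on
`log |T| / log q = σ` if `b_{f,0}(-σ) ≠ 0`, hence that the factors `1 - q ^ (-a) T ^ N` with
`a / N = σ` cancel identically, and `q` can be replaced by `𝕃`.
-/

set_option autoImplicit false

namespace Pool.Agent.Results.MP_9321be_ag.AffinelyIndependentLocal

open MvPolynomial Pool.Agent.W428.MOT Pool.Agent.W749.NM
open Pool.Agent.W375.MG (zetaG Good)

/-- **The strong motivic monodromy conjecture at the origin (local Bernstein-Sato form) for all
polynomials `f = ∑_j c_j x ^ (m j)` over `k ⊂ ℂ` with `f(0) = 0` and affinely independent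
exponents.**

`IsLocalBFunction f b` says that `b(s) f ^ s = P(s) f ^ (s + 1)` for a differential operator `P(s)`
with (formal, in particular convergent) power series at the origin as coefficients. The
Bernstein-Sato polynomial `b_{f,0}` is the monic one of least degree of these polynomials (for
convergent power series). `zetaN f 0` is the local motivic zeta function of the problem.
`Good E` says that `E` is a constructible set of nonzero numbers and `zetaG f {0} E` is the series
`∑_N [J_N] 𝕃 ^ (-n N) T ^ N`, `J_N` the `N`-jets `ψ` with origin `0` and `f(ψ) = a t ^ N mod t ^ (N + 1)`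
for some `a ∈ E`. The finite set `S` is the same for all the fields `K` which contain `k` and all
the sets `E`. -/
theorem result (k : Type) [Field k] [Algebra k ℂ] {n r : ℕ} (hr : 0 < r)
    (m : Fin r → Fin n → ℕ)
    (hm : AffineIndependent ℚ (fun (j : Fin r) (i : Fin n) => (m j i : ℚ)))
    (hm0 : ∀ j, m j ≠ 0) (c : Fin r → k) (hc : ∀ j, c j ≠ 0) :
    ∃ S : Finset (ℤ × ℤ),
      (∀ p ∈ S, p.1 < 0 ∧ 0 < p.2 ∧ ∀ b : Polynomial ℂ,
        Pool.Agent.H628R4.TP.IsLocalBFunction
          (∑ j, C (algebraMap k ℂ (c j)) * ∏ i, X i ^ m j i) b →
          b.eval ((p.1 : ℂ) / p.2) = 0) ∧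
      ∀ (K : Type) [Field K] [Algebra k K],
        zetaN (∑ j, C (algebraMap k K (c j)) * ∏ i, X i ^ m j i) 0 ∈ ratRing K S ∧
        ∀ E : Set (AlgebraicClosure K), Good E →
          zetaG (∑ j, C (algebraMap k K (c j)) * ∏ i, X i ^ m j i) {0} E ∈ ratRing K S := by
  obtain ⟨S, hS, hz⟩ := Pool.Agent.TH216.LR.ind_loc (k := k) (r := r) (N := n) hr m hm hm0 c hc
  refine ⟨S, hS, fun K _ _ => ⟨?_, fun E hE => hz K E hE⟩⟩
  exact Pool.Agent.TH216.LR.zetaN_mem0 _ _ (hz K {a | a ≠ 0} Pool.Agent.W375.MG.good_units)

end Pool.Agent.Results.MP_9321be_ag.AffinelyIndependentLocal
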