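import Mathlib
import Pool.Agent.Y228.HX.N4

/-!
# The motivic monodromy conjecture at the origin for the `χ_y`-genus: all nondegenerate polynomials

Let `k` be a field, `k ⊂ ℂ`, for instance `k = ℂ`, and let `f = ∑_j c_j x ^ (v j) ∈ k[x_1, …, x_n]`,
`f(0) = 0`, `c_j ≠ 0`, be nondegenerate with respect to the compact faces of its Newton polyhedron at
the origin (the class of polynomials of the known result for `n = 3`). There is no other condition:
the number of variables, the Newton polyhedron and the singularities are arbitrary.

Q1 asks that the (naive) local motivic zeta function `Z_{mot,0,f}(T) ∈ 𝓜_K[[T]]` (arcs with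
`ord_t f = l`, without condition on the angular component) lies in the subring generated over `𝓜_K` by
`T` and finitely many `1 / (1 - 𝕃 ^ (-σ) T ^ m)` such that the `exp(-2 π i σ / m)` are eigenvalues of the
monodromy of `f` at points near the origin. We prove this after applying to the
coefficients a ring homomorphism `φ : 𝓜_K → ℚ(u)` which is the `χ_y`-genus on the nondegenerate
hypersurfaces in tori (`ChiY φ`), that is `φ(𝕃) = u` and `φ` satisfies the formula of Danilov and
Khovanskii. The homomorphism given by the Hodge-Deligne polynomial, `[X] ↦ E(X; u, 1)`, which is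
`∑_{p,q} (-1) ^ (p + q) h^{p,q}(X) u ^ p` for smooth projective `X`, has this property, by theorems of
Deligne and of Danilov and Khovanskii (1986). These theorems are not formalised here; the result is
for all `φ` with this property.

The power series `φ(Z_{mot,0,f}(T))` lies in the subring of `ℚ(u)[[T]]` generated over the field `ℚ(u)`
by `T` and finitely many `1 / (1 - u ^ a T ^ b)` with `a < 0 < b` such that `a / b - i` is a root of the
local Bernstein-Sato polynomial `b_{f,0}` for an integer `i`; by the theorem of Malgrange and
Kashiwara `exp(2 π i a / b)` is an eigenvalue of the monodromy of `f` at points of `{f = 0}` arbitrarily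
near to `0`. The naive zeta function is not determined by the one with angular component `1`
(hand-in `ChiYGenus` of MP_b91a16_ag); here only the classes of `f_τ = 0` and of its complement in the
torus occur, and no cone over the face is needed.
-/

set_option autoImplicit false

namespace Pool.Agent.Results.MP_9321be_ag.ChiYGenusLocal

open MvPolynomial Pool.Agent.W428.MOT
open Pool.Agent.W749.NM (zetaN)
open Pool.Agent.TH216.MF (ratR)
open Pool.Agent.W425.ND (spa)
open Pool.Agent.Y229.CF (NondegC)
open Pool.Agent.Y228.HX (ChiY uX)

/-- **The motivic monodromy conjecture at the origin (naive motivic zeta function), specialised to the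
`χ_y`-genus, for all polynomials `f = ∑_j c_j x ^ (v j)` over `k ⊂ ℂ` which are nondegenerate with respect
to the compact faces of their Newton polyhedron.**

`spa v c` is the polynomial `f = ∑_j c_j x ^ (v j)`. `NondegC v c` says that for every `w ∈ ℝ ^ n` with
positive coordinates the face polynomial of `f` (the sum of the terms `c_j x ^ (v j)` on which
`⟨w, v j⟩` is minimal) and its derivatives `x_i ∂_i` have no common zero in `(ℂ \ 0) ^ n`.

`IsLocalBFunction f b` says that `b(s) f ^ s = P(s) f ^ (s + 1)` for a differential operator `P(s)`
with (formal, in particular convergent or polynomial) power series at the origin as coefficients;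
`b_{f,0}` and `b_f` are such polynomials. `zetaN f 0` is the local motivic zeta function
`Z_{mot,0,f}(T)` of the problem over the field `K`, `MK K = K_0(Var_K)[𝕃⁻¹]`, `PowerSeries.map φ`
applies `φ` to the coefficients, and `ratR uX S` is the subring of `ℚ(u)[[T]]` generated over `ℚ(u)` by
`T` and the series `1 / (1 - u ^ a T ^ b)`, `(a, b) ∈ S` (`a = -σ`, `b = m` in the problem). The finite set
`S` does not depend on `K` and `φ`.

`ChiY φ` says that `φ(𝕃) = u` and that for all `n`, all families of distinct exponents `v j ∈ ℕ ^ n`,
`j ∈ κ`, and all coefficients `c_j ∈ K \ 0` such that `g = ∑_{j ∈ κ} c_j x ^ (v j)` is nondegenerate for all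
the faces of its Newton polytope `P` (`NonL v κ c`: for every `w ∈ ℤ ^ n` the sum of the terms on which
`w` is minimal and its `x_i ∂_i` have no common zero in the torus over the algebraic closure of `K`)
the class of the hypersurface `g = 0` in the torus of dimension `n` (`ZT v κ c`) has the value
`((u - 1) ^ n + (u - 1) ^ (n + 1) E(u)) / u`, where `E ∈ ℚ(u)` is the rational function with the power
series expansion `∑_k #(k P ∩ ℤ ^ n) u ^ k` at `0` (`Expd E`; `Dil v κ k` is `k P ∩ ℤ ^ n`). -/
theorem result (k : Type) [Field k] [Algebra k ℂ] {n r : ℕ} (hr : 0 < r)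
    (v : Fin r → Fin n → ℕ) (c : Fin r → k) (hv : Function.Injective v) (hv0 : ∀ j, v j ≠ 0)
    (hc : ∀ j, c j ≠ 0) (hnd : NondegC v (fun j => algebraMap k ℂ (c j))) :
    ∃ S : Finset (ℤ × ℤ),
      (∀ p ∈ S, p.1 < 0 ∧ 0 < p.2 ∧ ∀ b : Polynomial ℂ,
        Pool.Agent.H628R4.TP.IsLocalBFunction (spa v (fun j => algebraMap k ℂ (c j))) b →
          ∃ i : ℤ, b.eval ((p.1 : ℂ) / p.2 - i) = 0) ∧
      ∀ (K : Type) [Field K] [Algebra k K] (φ : MK K →+* RatFunc ℚ), ChiY φ →
        PowerSeries.map φ (zetaN (spa v (fun j => algebraMap k K (c j))) 0) ∈ ratR uX S :=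
  Pool.Agent.Y228.HX.hodgeN k hr v c hv hv0 hc hnd

end Pool.Agent.Results.MP_9321be_ag.ChiYGenusLocal
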