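import Mathlib
import Pool.Agent.Y229.CF.N4B
import Pool.Agent.Y229.CF.OfLoc

/-!
# The motivic monodromy conjecture at the origin for nondegenerate polynomials in four variables:
# compact faces

Let `k` be a field, `k ⊂ ℂ`, and let `f = ∑_j c_j x ^ (v j) ∈ k[x_1, x_2, x_3, x_4]`, `f(0) = 0`,
`c_j ≠ 0`, be nondegenerate with respect to the COMPACT faces of its Newton polyhedron at the origin
(the usual nondegeneracy of Kouchnirenko and Varchenko, as in the theorem for three variables quoted
in the problem): for every compact face the face polynomial and its derivatives have no common zero
in the complex torus. Nothing else is assumed: the Newton polyhedron is arbitrary (it need not be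
simplicial or convenient), the coefficients need not be generic, there is no condition on the terms
above the compact faces, and the singularities need not be isolated. Then the motivic monodromy
conjecture holds for `f` at the origin: the local motivic zeta function
`𝕃 ^ (-4) ∑_{N ≥ 1} [𝒳_N] (𝕃 ^ (-4) T) ^ N`, with `𝒳_N` the `N`-jets with origin `0` on which `f` has
order `N`, lies in the ring generated by `T` and finitely many `1 / (1 - 𝕃 ^ a T ^ b)` with
`a < 0 < b` such that `a / b - i` is a root of the local Bernstein-Sato polynomial `b_{f,0}` for an
integer `i`; by the theorem of Malgrange and Kashiwara `exp(2 π i a / b)` is an eigenvalue of the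
monodromy of `f` at points of `{f = 0}` arbitrarily near to `0`.

For the topological zeta function this is a theorem of Esterov, Lemahieu and Takeuchi.

Method. (1) The functional equation of the Bernstein-Sato polynomial of `f` is deformed to very
general coefficients. For compact faces the modules which occur are only finitely generated modulo
terms which are divisible by monomials of high degree; these terms do not contribute (see
`Y229.CF`). The result is an algebraic relation between difference operators. (2) Every facet of the
Newton polyhedron whose candidate pole is not an integer has one of the following types: it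
contains a lower simplex which is not `B1`, or a suitable circuit, or a suitable point (in these
three cases the relation shows that the candidate pole is a root modulo integers), or it is a
simplex, or `B1`, or `B2` in two directions (Cayley sum). (3) If only the last three types occur at
a level, the relation and the linear relations between the classes of the zero sets of the face
polynomials (of compact faces) show that the factors `1 - 𝕃 ^ a T ^ b` of this level cancel in the
motivic zeta function.
-/

set_option autoImplicit false

namespace Pool.Agent.Results.MP_9321be_ag.CompactFacesFourVariables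

open MvPolynomial Pool.Agent.W428.MOT Pool.Agent.W749.NM
open Pool.Agent.Y229.CF (NondegC)

/-- **The motivic monodromy conjecture at the origin for all polynomials `f = ∑_j c_j x ^ (v j)` in four
variables over `k ⊂ ℂ` which are nondegenerate with respect to the compact faces of their Newton
polyhedron.**

`NondegC v c` says that for every `w ∈ ℝ ^ 4` with positive coordinates the face polynomial of `f`
(the sum of the terms `c_j x ^ (v j)` on which `⟨w, v j⟩` is minimal) and its derivatives `x_i ∂_i`
have no common zero in `(ℂ \ 0) ^ 4`; these are exactly the faces of the convex hull of the `v j` which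
are compact faces of the Newton polyhedron `conv {v j} + ℝ_{≥ 0} ^ 4`.

`IsLocalBFunction f b` says that `b(s) f ^ s = P(s) f ^ (s + 1)` for a differential operator `P(s)`
with (formal, in particular convergent) power series at the origin as coefficients. The
Bernstein-Sato polynomial `b_{f,0}` is the monic one of least degree of these polynomials (for
convergent power series). `zetaN f 0` is the local motivic zeta function of the problem. The finite
set `S` is the same for all the fields `K` which contain `k`; for the problem take `k = K = ℂ`. -/
theorem result (k : Type) [Field k] [Algebra k ℂ] {r : ℕ} (hr : 0 < r)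
    (v : Fin r → Fin 4 → ℕ) (c : Fin r → k) (hv : Function.Injective v) (hv0 : ∀ j, v j ≠ 0)
    (hc : ∀ j, c j ≠ 0) (hnd : NondegC v (fun j => algebraMap k ℂ (c j))) :
    ∃ S : Finset (ℤ × ℤ),
      (∀ p ∈ S, p.1 < 0 ∧ 0 < p.2 ∧ ∀ b : Polynomial ℂ,
        Pool.Agent.H628R4.TP.IsLocalBFunction
          (∑ j, C (algebraMap k ℂ (c j)) * ∏ i, X i ^ v j i) b →
          ∃ i : ℤ, b.eval ((p.1 : ℂ) / p.2 - i) = 0) ∧
      ∀ (K : Type) [Field K] [Algebra k K],
        zetaN (∑ j, C (algebraMap k K (c j)) * ∏ i, X i ^ v j i) 0 ∈ ratRing K S := by
  obtain ⟨S, hS, hz⟩ := Pool.Agent.Y229.CF.nd_four' hr v hv hv0 c hc hnd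
  refine ⟨S, fun p hp => ⟨(hS p hp).1, (hS p hp).2.1, fun b hb => ?_⟩, fun K _ _ => ?_⟩
  · obtain ⟨h1, h2⟩ := Pool.Agent.Y229.CF.of_local' v (by omega) _ hv hv0 hnd b hb
    exact (hS p hp).2.2 b h1 h2
  · exact Pool.Agent.Y229.CF.zetaN_of _ S (hz K)

end Pool.Agent.Results.MP_9321be_ag.CompactFacesFourVariables
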