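import Mathlib
import Pool.Agent.Y229.CF.OfLoc

/-!
# The motivic monodromy conjecture at the origin for polynomials nondegenerate for the compact faces

Let `k` be a field, `k ⊂ ℂ`, and let `f = ∑_j c_j x ^ (v j) ∈ k[x_1, …, x_n]`, `f(0) = 0`, `c_j ≠ 0`, be
nondegenerate with respect to the COMPACT faces of its Newton polyhedron at the origin (the usual
nondegeneracy of Kouchnirenko and Varchenko, as in the theorem for three variables quoted in the
problem): for every compact face the face polynomial and its derivatives have no common zero in the
complex torus. There is no condition on the terms of `f` above the compact faces, and no further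
genericity is assumed; the number of variables and the singularities are arbitrary (they need not be
isolated).

For a facet of the Newton polyhedron with primitive inner normal vector `a ∈ ℕ ^ n` let
`N_a = min ⟨a, ·⟩ > 0` be its order and `-|a| / N_a` its candidate pole. Every candidate pole is assumed
to be an integer, or to agree modulo integers with the candidate pole of a facet which contains
a suitable simplex which is not of type `B1`, or to satisfy the following: at every vertex, the
facets of the candidate pole through this vertex are simplices or `B1`-facets in a common direction,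
which may depend on the vertex. Only the vertices of the Newton polyhedron count in the third case.
In particular all simplicial Newton polyhedra are allowed, and all polyhedra all of whose facets
which are not simplices are `B1`-facets in a common direction. Then the motivic monodromy conjecture
holds for `f` at the origin: the local motivic zeta function
`𝕃 ^ (-n) ∑_{N ≥ 1} [𝒳_N] (𝕃 ^ (-n) T) ^ N`, with `𝒳_N` the `N`-jets with origin `0`
on which `f` has order `N`, lies in the ring generated by `T` and finitely many
`1 / (1 - 𝕃 ^ a T ^ b)` with `a < 0 < b` such that `a / b - i` is a root of the local Bernstein-Sato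
polynomial `b_{f,0}` for an integer `i`; by the theorem of Malgrange and Kashiwara `exp(2 π i a / b)`
is an eigenvalue of the monodromy of `f` at points of `{f = 0}` arbitrarily near to `0`.

Method. As in the starting result NondegenerateVerticesLocal, which needs nondegeneracy for all faces
of the Newton polytope, with a new proof of the relation obtained by deformation to very general
coefficients: for compact faces the modules of the sequences
`s ↦ s (s - 1) ⋯ (s - m + 1) x ^ c f ^ (s - m)`, `c` in `m` times the Newton polyhedron, over
`ℂ⟦τ⟧[s, x_1 ∂_1, …]` are only finitely generated modulo the terms which are divisible by monomials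
of degree `k`, for every `k`; these terms do not contribute to the relation, for large `k`.
-/

set_option autoImplicit false

namespace Pool.Agent.Results.MP_9321be_ag.CompactFacesVertices

open MvPolynomial Pool.Agent.W428.MOT Pool.Agent.W749.NM Pool.Agent.TH216.HD
open Pool.Agent.TH216.HDNL
open Pool.Agent.Y229.CF (NondegC)

/-- **The motivic monodromy conjecture at the origin for all polynomials `f = ∑_j c_j x ^ (v j)` over
`k ⊂ ℂ` which are nondegenerate with respect to the compact faces of their Newton polyhedron and
satisfy `HypVL`.**

`NondegC v c` says that for every `w ∈ ℝ ^ n` with positive coordinates the face polynomial of `f`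
(the sum of the terms `c_j x ^ (v j)` on which `⟨w, v j⟩` is minimal) and its derivatives `x_i ∂_i`
have no common zero in `(ℂ \ 0) ^ n`. `V` is a set of exponents of `f` such that all the exponents of
`f` are in `conv {v j, j ∈ V} + ℝ_{≥ 0} ^ n` (`Spans v V`), for instance the set of the vertices of the
Newton polyhedron.

`HypVL v V` says that for every ray `a` of the normal fan of the Newton polyhedron (`IsRay v a`)
with `N_a := ordA v a = min_j ⟨a, v j⟩ > 0` one of the following holds:
* `N_a` divides `|a|` (the candidate pole is an integer);
* `|a| / N_a - |a'| / N_{a'} ∈ ℤ` for some `a' ∈ ℕ ^ n` with `N_{a'} > 0` and `NonB1 v True a'`: there is a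
  set `J` of `#{i | a' i ≠ 0}` elements with `⟨a', v j⟩ = N_{a'}` for `j ∈ J` such that the vectors
  `(v j i)_{a' i ≠ 0}`, `j ∈ J`, are linearly independent, such that no variable `x_i` with
  `a' i ≠ 0` occurs in exactly one of the monomials `x ^ (v j)`, `j ∈ J`, and there with exponent `1`,
  and such that (a condition only if some `a' i = 0`) for all `l` with `⟨a', v l⟩ = N_{a'}`, if `v l`
  agrees with `∑_{j ∈ J} c_j (v j)` in the coordinates `i` with `a' i ≠ 0`, then
  `∑_j c_j s(v j) ≤ s(v l)`, `s(w) = ∑_{a' i = 0} w_i`;
* `LocVL v V σ` for `σ = lev v a = |a| / N_a`: for every `j1 ∈ V` there is a variable `x_i` such that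
  each of the rays `a'` with `N_{a'} > 0`, `|a'| / N_{a'} = σ` and `⟨a', v j1⟩ = N_{a'}` (the facets
  through `v j1`) satisfies one of
  - its facet is a simplex (`SimpVL v V a'`): the vectors `(v j i)_{a' i ≠ 0}`, for the `j ∈ V` with
    `⟨a', v j⟩ = N_{a'}`, are linearly independent;
  - it is B1 in the direction `i` (`B1VL v V i a'`): `a' i ≠ 0`, and exactly one of the monomials
    `x ^ (v j)`, `j ∈ V`, with `⟨a', v j⟩ = N_{a'}` is divisible by `x_i`, and it is not divisible by
    `x_i ^ 2`.

`IsLocalBFunction f b` says that `b(s) f ^ s = P(s) f ^ (s + 1)` for a differential operator `P(s)`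
with (formal, in particular convergent) power series at the origin as coefficients. The
Bernstein-Sato polynomial `b_{f,0}` is the monic one of least degree of these polynomials (for
convergent power series). `zetaN f 0` is the local motivic zeta function of the problem. The finite
set `S` is the same for all the fields `K` which contain `k`. -/
theorem result (k : Type) [Field k] [Algebra k ℂ] {n r : ℕ} (hr : 0 < r)
    (v : Fin r → Fin n → ℕ) (c : Fin r → k) (hv : Function.Injective v) (hv0 : ∀ j, v j ≠ 0)
    (hc : ∀ j, c j ≠ 0) (hnd : NondegC v (fun j => algebraMap k ℂ (c j)))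
    (V : Finset (Fin r)) (hV : Spans v V) (hL : HypVL v V) :
    ∃ S : Finset (ℤ × ℤ),
      (∀ p ∈ S, p.1 < 0 ∧ 0 < p.2 ∧ ∀ b : Polynomial ℂ,
        Pool.Agent.H628R4.TP.IsLocalBFunction
          (∑ j, C (algebraMap k ℂ (c j)) * ∏ i, X i ^ v j i) b →
          ∃ i : ℤ, b.eval ((p.1 : ℂ) / p.2 - i) = 0) ∧
      ∀ (K : Type) [Field K] [Algebra k K],
        zetaN (∑ j, C (algebraMap k K (c j)) * ∏ i, X i ^ v j i) 0 ∈ ratRing K S := by
  obtain ⟨S, hS, hz⟩ := Pool.Agent.Y229.CF.nd_motX' hr v hv hv0 c hc hnd V hV hL
  refine ⟨S, fun p hp => ⟨(hS p hp).1, (hS p hp).2.1, fun b hb => ?_⟩, fun K _ _ => ?_⟩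
  · obtain ⟨h1, h2⟩ := Pool.Agent.Y229.CF.of_local' v (by omega) _ hv hv0 hnd b hb
    exact (hS p hp).2.2 b h1 h2
  · exact Pool.Agent.Y229.CF.zetaN_of _ S (hz K)

end Pool.Agent.Results.MP_9321be_ag.CompactFacesVertices
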